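import Pool.Agent.H3.Dem.Semi
import Pool.Agent.H3.Dem.BrkEquiv

/-!
# Demonet's conjecture and the second brick Brauer-Thrall conjecture

`A` is a finite-dimensional algebra over a field `K`. Call `A` a counterexample to Demonet's
conjecture if it has infinitely many indecomposable τ-rigid modules and every element of
`K₀(proj A)` is the `g`-vector of a τ-rigid pair. Over an infinite field `A` is a counterexample if
and only if it has infinitely many bricks but only finitely many of each dimension, and over any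
field a counterexample has these properties and moreover every semibrick has at most
`rank K₀(proj A)` members, which are separated by elements of `K₀(proj A)`.
The proof uses helper5's proof of the stable brick conjecture.
-/

set_option autoImplicit false

namespace Pool.Agent.Results.MP_655e1e_al.Bricks

open Dem SBC

theorem result (K A : Type) [Field K] [Ring A] [Algebra K A] [Module.Finite K A] :
    (((∀ x ∈ K0 K A, ∃ t : TRPair K A, ∀ L, gvec t L = x L) ∧
        ¬ ∃ l : List (FMod K A), ∀ V : FMod K A, Indec V → TauRigid V →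
          ∃ N ∈ l, Nonempty (V ≃ₗ[A] N)) →
      (¬ ∃ l : List (FMod K A), ∀ B : FMod K A, Brick B → ∃ N ∈ l, Nonempty (B ≃ₗ[A] N)) ∧
      (∀ n : ℕ, ∃ l : List (FMod K A), ∀ B : FMod K A, Brick B → Module.finrank K B = n →
        ∃ N ∈ l, Nonempty (B ≃ₗ[A] N)) ∧
      ∀ (k : ℕ) (B : Fin k → FMod K A), Dem.Semibrick B →
        k ≤ Module.finrank ℤ (K0 K A) ∧
        ∃ x : Fin k → (FMod K A → ℤ), ∀ i, x i ∈ K0 K A ∧ 0 < x i (B i) ∧
          ∀ j, j ≠ i → x i (B j) = 0) ∧
    (Infinite K →
      (¬ ∃ l : List (FMod K A), ∀ B : FMod K A, Brick B → ∃ N ∈ l, Nonempty (B ≃ₗ[A] N)) →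
      (∀ n : ℕ, ∃ l : List (FMod K A), ∀ B : FMod K A, Brick B → Module.finrank K B = n →
        ∃ N ∈ l, Nonempty (B ≃ₗ[A] N)) →
      (∀ x ∈ K0 K A, ∃ t : TRPair K A, ∀ L, gvec t L = x L) ∧
        ¬ ∃ l : List (FMod K A), ∀ V : FMod K A, Indec V → TauRigid V →
          ∃ N ∈ l, Nonempty (V ≃ₗ[A] N)) := by
  refine ⟨?_, ?_⟩
  · rintro ⟨hZ, hinf⟩
    have h := lr_of_pairs hZ
    refine ⟨?_, finitely_many_bricks K A h, fun k B hB => ⟨semibrick_card h hB, semibrick_sep h hB⟩⟩
    rintro ⟨l, hl⟩
    exact hinf (finite_of_bricks l hl)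
  · intro hK hinf hfin
    have hZ := pairs_of_bricks hK hfin
    refine ⟨hZ, ?_⟩
    rintro ⟨l, hl⟩
    exact hinf (bricks_of_finite (lr_of_pairs hZ) l hl)

end Pool.Agent.Results.MP_655e1e_al.Bricks
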