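import Pool.Agent.H3.Dem.Planes

/-!
# The `g`-vector fan on rational planes

`A` is a finite-dimensional algebra over a field `K` (any number of simple modules). If every
element of `K₀(proj A)` is the `g`-vector of a τ-rigid pair, then the real plane spanned by any two
lattice vectors is covered by finitely many cones `C(V, P)` of the `g`-vector fan.
The mathematical proof is due to helper10.
-/

set_option autoImplicit false

universe u

namespace Pool.Agent.Results.MP_655e1e_al.RationalPlanes

open Dem

theorem result (K A : Type u) [Field K] [Ring A] [Algebra K A] [Module.Finite K A]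
    (hZ : ∀ x ∈ K0 K A, ∃ t : TRPair K A, ∀ L, gvec t L = x L)
    (x y : FMod K A → ℤ) (hx : x ∈ K0 K A) (hy : y ∈ K0 K A) :
    ∃ S : List (TRPair K A), ∀ α β : ℝ, ∃ t ∈ S,
      InCone t (fun L => α * (x L : ℝ) + β * (y L : ℝ)) :=
  planes hZ hx hy

end Pool.Agent.Results.MP_655e1e_al.RationalPlanes
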