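import Pool.Agent.H3.Dem.Torsion

/-!
# Finitely generated torsion classes

`A` is a finite-dimensional algebra over a field `K`. If every element of `K₀(proj A)` is the
`g`-vector of a τ-rigid pair, then for every module `M` the smallest torsion class containing `M`
is `Fac V` for a τ-rigid module `V`; in particular it is functorially finite.
The proof uses helper5's proof of the stable brick conjecture.
-/

set_option autoImplicit false

namespace Pool.Agent.Results.MP_655e1e_al.TorsionClasses

open Dem SBC

theorem result (K A : Type) [Field K] [Ring A] [Algebra K A] [Module.Finite K A]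
    (hZ : ∀ x ∈ K0 K A, ∃ t : TRPair K A, ∀ L, gvec t L = x L) (M : FMod K A) :
    ∃ V : FMod K A, TauRigid V ∧ ∀ Y : FMod K A,
      (∀ T : FMod K A → Prop, TorsCls T → T M → T Y) ↔ Fac V Y := by
  obtain ⟨t, ht⟩ := exists_fac hZ M
  exact ⟨t.V, ⟨t.m, t.rigid⟩, fun Y => (tors_iff_perp M Y).trans (ht Y)⟩

end Pool.Agent.Results.MP_655e1e_al.TorsionClasses
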