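import Pool.Agent.H3.Dem.Planes

/-!
# Demonet's conjecture for algebras with at most two simple modules

`A` is a finite-dimensional algebra over a field `K` with at most two simple modules up to
isomorphism. If every element of `K₀(proj A)` is the `g`-vector of a τ-rigid pair, then `A` is
τ-tilting finite. The mathematical proof is due to helper10.
-/

set_option autoImplicit false

universe u

namespace Pool.Agent.Results.MP_655e1e_al.TwoSimples

open Dem

theorem result (K A : Type u) [Field K] [Ring A] [Algebra K A] [Module.Finite K A]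
    (S₁ S₂ : FMod K A)
    (hS : ∀ S : FMod K A, IsSimpleModule A S → Nonempty (S ≃ₗ[A] S₁) ∨ Nonempty (S ≃ₗ[A] S₂))
    (hZ : ∀ x ∈ K0 K A, ∃ t : TRPair K A, ∀ L, gvec t L = x L) :
    ∃ l : List (FMod K A), ∀ V : FMod K A, Indec V → TauRigid V →
      ∃ N ∈ l, Nonempty (V ≃ₗ[A] N) :=
  two_simples hZ S₁ S₂ hS

end Pool.Agent.Results.MP_655e1e_al.TwoSimples
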